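import Mathlib

set_option autoImplicit false

namespace Pool.Agent.Work.MP_42242f_al

open CategoryTheory

universe u

section general

variable {R : Type u} [CommRing R]

/-- Projective dimension of a product. -/
theorem pd_prod (A B : Ideal R) (n : ℕ)
    (hA : HasProjectiveDimensionLT (ModuleCat.of R A) n)
    (hB : HasProjectiveDimensionLT (ModuleCat.of R B) n) :
    HasProjectiveDimensionLT (ModuleCat.of R (A × B)) n := by
  let S : ShortComplex (ModuleCat.{u} R) :=
    ModuleCat.shortComplexOfCompEqZero (LinearMap.inl R A B) (LinearMap.snd R A B)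
      (by ext x; simp)
  have hS : S.ShortExact := by
    apply ModuleCat.shortComplex_shortExact
    · intro x
      constructor
      · intro hx
        have hx' : x.2 = 0 := hx
        exact ⟨x.1, Prod.ext rfl hx'.symm⟩
      · rintro ⟨y, rfl⟩
        rfl
    · intro x y h
      exact congrArg Prod.fst h
    · intro y
      exact ⟨(0, y), rfl⟩
  exact hS.hasProjectiveDimensionLT_X₂ n hA hB

/-- Mayer-Vietoris bound for the projective dimension of a sum of ideals. -/
theorem pd_sup (A B : Ideal R) (n : ℕ)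
    (hA : HasProjectiveDimensionLT (ModuleCat.of R A) (n + 1))
    (hB : HasProjectiveDimensionLT (ModuleCat.of R B) (n + 1))
    (hAB : HasProjectiveDimensionLT (ModuleCat.of R (A ⊓ B : Ideal R)) n) :
    HasProjectiveDimensionLT (ModuleCat.of R (A ⊔ B : Ideal R)) (n + 1) := by
  let f : (A ⊓ B : Ideal R) →ₗ[R] (A × B) :=
    LinearMap.prod (Submodule.inclusion inf_le_left) (Submodule.inclusion inf_le_right)
  let g : (A × B) →ₗ[R] (A ⊔ B : Ideal R) :=
    (Submodule.inclusion le_sup_left).comp (LinearMap.fst R A B) -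
      (Submodule.inclusion le_sup_right).comp (LinearMap.snd R A B)
  let S : ShortComplex (ModuleCat.{u} R) :=
    ModuleCat.shortComplexOfCompEqZero f g (by
      ext x
      simp [f, g])
  have hS : S.ShortExact := by
    apply ModuleCat.shortComplex_shortExact
    · intro x
      constructor
      · intro hx
        have hx' : ((x.1 : R) - (x.2 : R)) = 0 := congrArg Subtype.val (show g x = 0 from hx)
        have h1 : (x.1 : R) = (x.2 : R) := sub_eq_zero.mp hx'
        refine ⟨⟨x.1, x.1.2, by rw [h1]; exact x.2.2⟩, ?_⟩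
        refine Prod.ext ?_ ?_
        · rfl
        · exact Subtype.ext h1
      · rintro ⟨y, rfl⟩
        exact Subtype.ext (sub_self (y : R))
    · intro x y h
      exact Subtype.ext (congrArg (fun z : A × B => (z.1 : R)) h)
    · intro y
      obtain ⟨a, ha, b, hb, hab⟩ := Submodule.mem_sup.mp y.2
      refine ⟨(⟨a, ha⟩, ⟨-b, B.neg_mem hb⟩), ?_⟩
      exact Subtype.ext (by
        change a - (-b) = (y : R)
        rw [sub_neg_eq_add, hab])
  exact hS.hasProjectiveDimensionLT_X₃ n hAB (pd_prod A B (n + 1) hA hB)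

/-- The zero ideal has projective dimension less than everything. -/
theorem pd_bot (n : ℕ) : HasProjectiveDimensionLT (ModuleCat.of R (⊥ : Ideal R)) n := by
  have h0 : Limits.IsZero (ModuleCat.of R (⊥ : Ideal R)) := by
    rw [ModuleCat.isZero_iff_subsingleton]
    exact inferInstanceAs (Subsingleton (⊥ : Ideal R))
  have := h0.hasProjectiveDimensionLT_zero
  exact hasProjectiveDimensionLT_of_ge _ 0 n (Nat.zero_le n)

/-- A nonzero principal ideal of a domain is free, hence of projective dimension less than one. -/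
theorem pd_principal [IsDomain R] (x : R) (hx : x ≠ 0) :
    HasProjectiveDimensionLT (ModuleCat.of R (Ideal.span {x} : Ideal R)) 1 := by
  rw [← projective_iff_hasProjectiveDimensionLT_one, ← IsProjective.iff_projective]
  exact Module.Projective.of_equiv (LinearEquiv.toSpanNonzeroSingleton R R x hx)

end general

section monomial

variable {σ : Type} {k : Type u} [Field k]

/-- The monomial ideal generated by the monomials with exponents in `s`. -/
noncomputable def mI (k : Type u) [Field k] (s : Set (σ →₀ ℕ)) : Ideal (MvPolynomial σ k) :=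
  Ideal.span ((fun m => MvPolynomial.monomial m (1 : k)) '' s)

theorem mem_mI {s : Set (σ →₀ ℕ)} {x : MvPolynomial σ k} :
    x ∈ mI k s ↔ ∀ m ∈ x.support, ∃ t ∈ s, t ≤ m :=
  MvPolynomial.mem_ideal_span_monomial_image

theorem mI_empty : mI k (∅ : Set (σ →₀ ℕ)) = ⊥ := by
  simp [mI]

theorem mI_insert (s : Set (σ →₀ ℕ)) (w : σ →₀ ℕ) : mI k (insert w s) = mI k s ⊔ mI k {w} := by
  unfold mI
  rw [Set.insert_eq, Set.union_comm, Set.image_union, Ideal.span_union]

theorem mI_inf (s : Set (σ →₀ ℕ)) (w : σ →₀ ℕ) :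
    mI k s ⊓ mI k {w} = mI k ((fun m => m ⊔ w) '' s) := by
  ext x
  rw [Ideal.mem_inf, mem_mI, mem_mI, mem_mI]
  constructor
  · rintro ⟨h1, h2⟩ m hm
    obtain ⟨t, ht, htm⟩ := h1 m hm
    obtain ⟨t', ht', htm'⟩ := h2 m hm
    rw [Set.mem_singleton_iff] at ht'
    subst ht'
    exact ⟨t ⊔ t', ⟨t, ht, rfl⟩, sup_le htm htm'⟩
  · intro h
    constructor
    · intro m hm
      obtain ⟨_, ⟨t, ht, rfl⟩, htm⟩ := h m hm
      exact ⟨t, ht, le_sup_left.trans htm⟩
    · intro m hm
      obtain ⟨_, ⟨t, ht, rfl⟩, htm⟩ := h m hm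
      exact ⟨w, rfl, le_sup_right.trans htm⟩

theorem pd_mI_singleton (w : σ →₀ ℕ) :
    HasProjectiveDimensionLT (ModuleCat.of (MvPolynomial σ k) (mI k {w})) 1 := by
  unfold mI
  rw [Set.image_singleton]
  exact pd_principal _ (by simp)

/-- Redundant generators can be dropped. -/
theorem mI_insert_of_redundant (s : Set (σ →₀ ℕ)) (w : σ →₀ ℕ) (h : ∃ t ∈ s, t ≤ w) :
    mI k (insert w s) = mI k s := by
  ext x
  rw [mem_mI, mem_mI]
  constructor
  · intro hx m hm
    obtain ⟨t, ht, htm⟩ := hx m hm
    rcases Set.mem_insert_iff.mp ht with rfl | ht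
    · obtain ⟨t', ht', h'⟩ := h
      exact ⟨t', ht', h'.trans htm⟩
    · exact ⟨t, ht, htm⟩
  · intro hx m hm
    obtain ⟨t, ht, htm⟩ := hx m hm
    exact ⟨t, Set.mem_insert_of_mem _ ht, htm⟩

/-- The set of the first `j` generators, joined with `w`. -/
def gens (ℓ : ℕ → (σ →₀ ℕ)) (j : ℕ) (w : σ →₀ ℕ) : Set (σ →₀ ℕ) :=
  {m | ∃ v < j, m = ℓ v ⊔ w}

theorem gens_zero (ℓ : ℕ → (σ →₀ ℕ)) (w : σ →₀ ℕ) : gens ℓ 0 w = ∅ := by
  ext m; simp [gens]

theorem gens_succ (ℓ : ℕ → (σ →₀ ℕ)) (j : ℕ) (w : σ →₀ ℕ) :
    gens ℓ (j + 1) w = insert (ℓ j ⊔ w) (gens ℓ j w) := by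
  ext m
  simp only [gens, Set.mem_ofPred_eq, Set.mem_insert_iff]
  constructor
  · rintro ⟨v, hv, rfl⟩
    rcases Nat.lt_succ_iff_lt_or_eq.mp hv with h | rfl
    · exact Or.inr ⟨v, h, rfl⟩
    · exact Or.inl rfl
  · rintro (rfl | ⟨v, hv, rfl⟩)
    · exact ⟨j, Nat.lt_succ_self j, rfl⟩
    · exact ⟨v, Nat.lt_succ_of_lt hv, rfl⟩

/-- A finite set of generators is rooted above `w` if no smaller generator divides the least common
multiple of an upper segment and `w`. -/
def Rooted (ℓ : ℕ → (σ →₀ ℕ)) (w : σ →₀ ℕ) (F : Finset ℕ) : Prop :=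
  ∀ f ∈ F, ∀ c < f, ¬ (ℓ c ≤ (F.filter (fun g => f ≤ g)).sup ℓ ⊔ w)

/-- The Lyubeznik bound on the projective dimension of a monomial ideal. -/
theorem lyubeznik (ℓ : ℕ → (σ →₀ ℕ)) (j : ℕ) : ∀ (w : σ →₀ ℕ) (K : ℕ),
    (∀ F : Finset ℕ, (∀ f ∈ F, f < j) → Rooted ℓ w F → F.card ≤ K) →
      HasProjectiveDimensionLT (ModuleCat.of (MvPolynomial σ k) (mI k (gens ℓ j w))) K := by
  induction j with
  | zero =>
    intro w K _
    rw [gens_zero, mI_empty]
    exact pd_bot K
  | succ j ih =>
    intro w K h
    have hstep : HasProjectiveDimensionLT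
        (ModuleCat.of (MvPolynomial σ k) (mI k (gens ℓ j w))) K :=
      ih w K (fun F hF hr => h F (fun f hf => Nat.lt_succ_of_lt (hF f hf)) hr)
    rw [gens_succ]
    by_cases hc : ∃ c < j, ℓ c ≤ ℓ j ⊔ w
    · obtain ⟨c, hcj, hcw⟩ := hc
      rw [mI_insert_of_redundant]
      · exact hstep
      · exact ⟨ℓ c ⊔ w, ⟨c, hcj, rfl⟩, sup_le hcw le_sup_right⟩
    · have hK1 : ({j} : Finset ℕ).card ≤ K := by
        apply h
        · intro f hf
          rw [Finset.mem_singleton.mp hf]; exact Nat.lt_succ_self j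
        · intro f hf c hcf hle
          rw [Finset.mem_singleton.mp hf] at hcf hle
          apply hc
          refine ⟨c, hcf, ?_⟩
          simpa [Finset.filter_singleton] using hle
      rw [Finset.card_singleton] at hK1
      obtain ⟨K', rfl⟩ : ∃ K', K = K' + 1 := ⟨K - 1, by omega⟩
      rw [mI_insert]
      apply pd_sup
      · exact hstep
      · have := pd_mI_singleton (k := k) (ℓ j ⊔ w)
        exact hasProjectiveDimensionLT_of_ge _ 1 _ (by omega)
      · rw [mI_inf]
        have himg : (fun m => m ⊔ (ℓ j ⊔ w)) '' (gens ℓ j w) = gens ℓ j (ℓ j ⊔ w) := by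
          ext m
          constructor
          · rintro ⟨_, ⟨v, hv, rfl⟩, rfl⟩
            refine ⟨v, hv, ?_⟩
            change ℓ v ⊔ w ⊔ (ℓ j ⊔ w) = ℓ v ⊔ (ℓ j ⊔ w)
            rw [sup_assoc]
            congr 1
            rw [sup_comm (ℓ j) w, ← sup_assoc, sup_idem]
          · rintro ⟨v, hv, rfl⟩
            refine ⟨ℓ v ⊔ w, ⟨v, hv, rfl⟩, ?_⟩
            change ℓ v ⊔ w ⊔ (ℓ j ⊔ w) = ℓ v ⊔ (ℓ j ⊔ w)
            rw [sup_assoc]
            congr 1
            rw [sup_comm (ℓ j) w, ← sup_assoc, sup_idem]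
        rw [himg]
        apply ih
        intro F hF hr
        have hjF : j ∉ F := fun hj => lt_irrefl _ (hF j hj)
        have h1 := h (insert j F) (by
          intro f hf
          rcases Finset.mem_insert.mp hf with rfl | hf
          · exact Nat.lt_succ_self _
          · exact Nat.lt_succ_of_lt (hF f hf)) (by
          intro f hf c hcf hle
          rcases Finset.mem_insert.mp hf with rfl | hf
          · apply hc
            refine ⟨c, hcf, ?_⟩
            have hfil : (insert f F).filter (fun g => f ≤ g) = {f} := by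
              ext g
              simp only [Finset.mem_filter, Finset.mem_insert, Finset.mem_singleton]
              constructor
              · rintro ⟨rfl | hg, hfg⟩
                · rfl
                · exact absurd (hF g hg) (not_lt.mpr hfg)
              · rintro rfl
                exact ⟨Or.inl rfl, le_refl _⟩
            rw [hfil, Finset.sup_singleton] at hle
            exact hle
          · apply hr f hf c hcf
            have hfil : (insert j F).filter (fun g => f ≤ g) =
                insert j (F.filter (fun g => f ≤ g)) := by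
              rw [Finset.filter_insert, if_pos (le_of_lt (hF f hf))]
            rw [hfil, Finset.sup_insert] at hle
            refine hle.trans (le_of_eq ?_)
            rw [sup_comm (ℓ j), sup_assoc])
        rw [Finset.card_insert_of_notMem hjF] at h1
        omega

end monomial

end Pool.Agent.Work.MP_42242f_al
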