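import Mathlib

set_option autoImplicit false

namespace Pool.Agent.Work.MP_42242f_al

open Finset

/-- There are at least `q / 2` elements of each parity. -/
theorem card_parity (q p : ℕ) (hp : p < 2) :
    q / 2 ≤ ((univ : Finset (Fin q)).filter (fun i : Fin q => (i : ℕ) % 2 = p)).card := by
  have h := Finset.card_le_card_of_injOn (s := (univ : Finset (Fin (q / 2))))
    (t := (univ : Finset (Fin q)).filter (fun i : Fin q => (i : ℕ) % 2 = p))
    (fun j => (⟨2 * j.1 + p, by have := j.2; omega⟩ : Fin q))
    (by
      intro j _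
      simp only [coe_filter, mem_univ, true_and, Set.mem_ofPred_eq]
      omega)
    (by
      intro j _ j' _ h
      have h' := congrArg Fin.val h
      simp only at h'
      exact Fin.ext (by omega))
  rwa [card_univ, Fintype.card_fin] at h

/-- Elements of a given parity outside a small set. -/
theorem card_parity_sdiff (q r p : ℕ) (hp : p < 2) (c : Finset (Fin q)) (hc : c.card ≤ r) :
    q / 2 - r ≤ (((univ : Finset (Fin q)).filter (fun i : Fin q => (i : ℕ) % 2 = p)) \ c).card := by
  have h1 := card_parity q p hp
  have h2 := Finset.le_card_sdiff c ((univ : Finset (Fin q)).filter (fun i : Fin q => (i : ℕ) % 2 = p))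
  omega

/-- The swap relation. -/
def Adj {q : ℕ} (c b : Finset (Fin q)) : Prop :=
  ∃ y ∈ c, ∃ y' ∉ c, b = insert y' (c.erase y)

/-- The double counting behind the projective dimension bound. -/
theorem comb (q r : ℕ) (hq : 16 * (r * (r + 1) ^ r) + 8 * r + 8 ≤ q)
    (B : Finset (Finset (Fin q))) (hB : ∀ b ∈ B, b.card = r)
    (G : Finset (Fin q → ℕ)) (hG : ∀ a ∈ G, ∑ i, a i = r ∧ ∃ i, 2 ≤ a i)
    (H : G.Nonempty → ∀ c : Finset (Fin q), c.card = r → Even (∑ i ∈ c, (i : ℕ)) →
      ∃ A : Finset (Fin q), (∀ g ∈ G, ∑ i ∈ A, g i < (A ∩ c).card) ∧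
        (∀ b ∈ B, ¬ Even (∑ i ∈ b, (i : ℕ)) → (A ∩ b).card < (A ∩ c).card)) :
    B.card + G.card ≤ q.choose r := by
  classical
  set P : Finset (Finset (Fin q)) := powersetCard r univ with hP
  have hPcard : P.card = q.choose r := by
    rw [hP, card_powersetCard, card_univ, Fintype.card_fin]
  have hBP : B ⊆ P := by
    intro b hb
    rw [hP, mem_powersetCard]
    exact ⟨subset_univ _, hB b hb⟩
  have hM : (P \ B).card + B.card = q.choose r := by
    rw [← hPcard]; exact card_sdiff_add_card_eq_card hBP
  rcases G.eq_empty_or_nonempty with hGe | hGne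
  · rw [hGe, card_empty, ← hPcard]
    exact card_le_card hBP
  have H' := H hGne
  set C : Finset (Finset (Fin q)) := P.filter (fun c => Even (∑ i ∈ c, (i : ℕ)) ∧
    ∃ a ∈ G, ∀ i, a i ≠ 0 → i ∈ c) with hC
  set m := q / 2 - r with hm
  -- first double counting
  have h1 : C.card * m ≤ (P \ B).card * (r * q) := by
    apply Finset.card_mul_le_card_mul Adj
    · intro c hc
      rw [hC, mem_filter, hP, mem_powersetCard] at hc
      obtain ⟨⟨-, hcr⟩, hce, a, haG, hac⟩ := hc
      obtain ⟨A, hA1, hA2⟩ := H' c hcr hce
      -- `c` is not contained in `A`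
      have hcA : ∃ y ∈ c, y ∉ A := by
        by_contra hcon
        push Not at hcon
        have hsum : ∑ i ∈ A, a i = r := by
          rw [← (hG a haG).1]
          apply Finset.sum_subset (subset_univ _)
          intro i _ hi
          by_contra hne
          exact hi (hcon i (hac i hne))
        have h3 := hA1 a haG
        have h4 : (A ∩ c).card ≤ c.card := card_le_card inter_subset_right
        omega
      obtain ⟨y, hyc, hyA⟩ := hcA
      have hpar : (1 - (y : ℕ) % 2) < 2 := by omega
      refine (card_parity_sdiff q r (1 - (y : ℕ) % 2) hpar c hcr.le).trans ?_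
      apply Finset.card_le_card_of_injOn (fun y' => insert y' (c.erase y))
      · intro y' hy'
        rw [mem_coe, mem_sdiff, mem_filter] at hy'
        obtain ⟨⟨-, hy'p⟩, hy'c⟩ := hy'
        have hy'e : y' ∉ c.erase y := fun h => hy'c (mem_of_mem_erase h)
        rw [mem_coe, mem_bipartiteAbove, mem_sdiff, hP, mem_powersetCard]
        refine ⟨⟨⟨subset_univ _, ?_⟩, ?_⟩, y, hyc, y', hy'c, rfl⟩
        · rw [card_insert_of_notMem hy'e, card_erase_of_mem hyc]
          have : 0 < c.card := card_pos.mpr ⟨y, hyc⟩
          omega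
        · intro hbB
          have hodd : ¬ Even (∑ i ∈ insert y' (c.erase y), (i : ℕ)) := by
            rw [sum_insert hy'e]
            have h5 := add_sum_erase c (fun i : Fin q => (i : ℕ)) hyc
            rw [Nat.even_iff] at hce ⊢
            omega
          have h6 := hA2 _ hbB hodd
          have h7 : (A ∩ c) ⊆ A ∩ insert y' (c.erase y) := by
            intro z hz
            rw [mem_inter] at hz ⊢
            refine ⟨hz.1, mem_insert_of_mem (mem_erase.mpr ⟨?_, hz.2⟩)⟩
            rintro rfl
            exact hyA hz.1
          exact absurd h6 (not_lt.mpr (card_le_card h7))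
      · intro y1 hy1 y2 hy2 h
        rw [mem_coe, mem_sdiff] at hy1 hy2
        simp only at h
        have h9 : y1 ∈ insert y2 (c.erase y) := by rw [← h]; exact mem_insert_self _ _
        rcases mem_insert.mp h9 with h9 | h9
        · exact h9
        · exact absurd (mem_of_mem_erase h9) hy1.2
    · intro b hb
      rw [mem_sdiff, hP, mem_powersetCard] at hb
      obtain ⟨⟨-, hbr⟩, -⟩ := hb
      have hsub : C.bipartiteBelow Adj b ⊆
          (b ×ˢ (univ : Finset (Fin q))).image (fun z => insert z.2 (b.erase z.1)) := by
        intro c hc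
        rw [mem_bipartiteBelow] at hc
        obtain ⟨-, y, hyc, y', hy'c, rfl⟩ := hc
        rw [mem_image]
        refine ⟨(y', y), mem_product.mpr ⟨mem_insert_self _ _, mem_univ _⟩, ?_⟩
        simp only
        rw [erase_insert (fun h => hy'c (mem_of_mem_erase h)), insert_erase hyc]
      refine (card_le_card hsub).trans (card_image_le.trans ?_)
      rw [card_product, hbr, card_univ, Fintype.card_fin]
  -- second double counting
  have h2 : G.card * m ≤ C.card * (r + 1) ^ r := by
    apply Finset.card_mul_le_card_mul (fun (a : Fin q → ℕ) (c : Finset (Fin q)) =>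
      ∀ i, a i ≠ 0 → i ∈ c)
    · intro a ha
      obtain ⟨har, j, hj⟩ := hG a ha
      have hsupp : (univ.filter (fun i => a i ≠ 0)).card + 1 ≤ r := by
        have hj' : j ∈ univ.filter (fun i => a i ≠ 0) := by
          rw [mem_filter]; exact ⟨mem_univ _, by omega⟩
        have e1 : ∑ i ∈ univ.filter (fun i => a i ≠ 0), a i = r := by
          rw [← har]
          exact sum_filter_ne_zero (s := univ) (f := a)
        have e2 := add_sum_erase (univ.filter (fun i => a i ≠ 0)) a hj'
        have e3 : ((univ.filter (fun i => a i ≠ 0)).erase j).card ≤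
            ∑ i ∈ (univ.filter (fun i => a i ≠ 0)).erase j, a i := by
          rw [card_eq_sum_ones]
          apply sum_le_sum
          intro i hi
          have := (mem_filter.mp (mem_of_mem_erase hi)).2
          omega
        have e4 := card_erase_add_one hj'
        omega
      obtain ⟨Y, hY1, -, hY2⟩ := exists_subsuperset_card_eq
        (s := univ.filter (fun i => a i ≠ 0)) (t := univ) (n := r - 1)
        (subset_univ _) (by omega) (by rw [card_univ, Fintype.card_fin]; omega)
      have hpar : (∑ i ∈ Y, (i : ℕ)) % 2 < 2 := by omega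
      refine (card_parity_sdiff q r ((∑ i ∈ Y, (i : ℕ)) % 2) hpar Y (by omega)).trans ?_
      apply Finset.card_le_card_of_injOn (fun y' => insert y' Y)
      · intro y' hy'
        rw [mem_coe, mem_sdiff, mem_filter] at hy'
        obtain ⟨⟨-, hy'p⟩, hy'Y⟩ := hy'
        have hsub : ∀ i, a i ≠ 0 → i ∈ insert y' Y := fun i hi =>
          mem_insert_of_mem (hY1 (mem_filter.mpr ⟨mem_univ _, hi⟩))
        rw [mem_coe, mem_bipartiteAbove, hC, mem_filter, hP, mem_powersetCard]
        refine ⟨⟨⟨subset_univ _, ?_⟩, ?_, a, ha, hsub⟩, hsub⟩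
        · rw [card_insert_of_notMem hy'Y, hY2]
          omega
        · rw [sum_insert hy'Y, Nat.even_iff]
          omega
      · intro y1 hy1 y2 hy2 h
        rw [mem_coe, mem_sdiff] at hy1 hy2
        simp only at h
        have h9 : y1 ∈ insert y2 Y := by rw [← h]; exact mem_insert_self _ _
        rcases mem_insert.mp h9 with h9 | h9
        · exact h9
        · exact absurd h9 hy1.2
    · intro c hc
      rw [hC, mem_filter, hP, mem_powersetCard] at hc
      obtain ⟨⟨-, hcr⟩, -⟩ := hc
      have hsub : G.bipartiteBelow (fun (a : Fin q → ℕ) (c : Finset (Fin q)) =>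
          ∀ i, a i ≠ 0 → i ∈ c) c ⊆
          Fintype.piFinset (fun i => if i ∈ c then range (r + 1) else {0}) := by
        intro a ha
        rw [mem_bipartiteBelow] at ha
        obtain ⟨haG, hac⟩ := ha
        rw [Fintype.mem_piFinset]
        intro i
        by_cases hi : i ∈ c
        · rw [if_pos hi, mem_range]
          have : a i ≤ ∑ i, a i := single_le_sum (fun _ _ => Nat.zero_le _) (mem_univ i)
          have := (hG a haG).1
          omega
        · rw [if_neg hi, mem_singleton]
          by_contra hne
          exact hi (hac i hne)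
      refine (card_le_card hsub).trans ?_
      rw [Fintype.card_piFinset]
      have e1 : ∀ i ∈ (univ : Finset (Fin q)),
          (if i ∈ c then range (r + 1) else {0} : Finset ℕ).card =
            (r + 1) ^ (if i ∈ c then 1 else 0) := by
        intro i _
        by_cases hi : i ∈ c
        · simp [hi]
        · simp [hi]
      rw [prod_congr rfl e1, prod_pow_eq_pow_sum]
      apply le_of_eq
      congr 1
      rw [sum_boole]
      simp [hcr]
  -- conclusion
  have hm4 : q ≤ 4 * m := by omega
  have hmpos : 0 < m := by omega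
  have h3 : G.card * (m * m) ≤ (P \ B).card * (m * m) := by
    calc G.card * (m * m) = (G.card * m) * m := by ring
      _ ≤ (C.card * (r + 1) ^ r) * m := Nat.mul_le_mul_right _ h2
      _ = (C.card * m) * (r + 1) ^ r := by ring
      _ ≤ ((P \ B).card * (r * q)) * (r + 1) ^ r := Nat.mul_le_mul_right _ h1
      _ = (P \ B).card * (q * (r * (r + 1) ^ r)) := by ring
      _ ≤ (P \ B).card * (m * m) := by
          apply Nat.mul_le_mul_left
          have h5 : 4 * (r * (r + 1) ^ r) ≤ m := by omega
          calc q * (r * (r + 1) ^ r) ≤ (4 * m) * (r * (r + 1) ^ r) := Nat.mul_le_mul_right _ hm4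
            _ = m * (4 * (r * (r + 1) ^ r)) := by ring
            _ ≤ m * m := Nat.mul_le_mul_left _ h5
  have h4 : G.card ≤ (P \ B).card := Nat.le_of_mul_le_mul_right h3 (Nat.mul_pos hmpos hmpos)
  omega

end Pool.Agent.Work.MP_42242f_al
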