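import Pool.Agent.Work.MP_42242f_al.Algebra
import Pool.Agent.Work.MP_42242f_al.Comb

set_option autoImplicit false

namespace Pool.Agent.Work.MP_42242f_al

open CategoryTheory Finset

universe u

/-- A finite set can be enumerated in order of increasing rank. -/
theorem exists_enum {α : Type} [Inhabited α] [DecidableEq α] (ρ : α → ℕ) (V : Finset α) :
    ∃ e : ℕ → α, (∀ v < V.card, e v ∈ V) ∧ (∀ a ∈ V, ∃ v < V.card, e v = a) ∧
      (∀ u < V.card, ∀ v < V.card, e u = e v → u = v) ∧
      (∀ u v, u ≤ v → v < V.card → ρ (e u) ≤ ρ (e v)) := by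
  induction V using Finset.induction_on_max_value ρ with
  | empty => exact ⟨fun _ => default, by simp, by simp, by simp, by simp⟩
  | insert a s ha hmax ih =>
    obtain ⟨e, h1, h2, h3, h4⟩ := ih
    rw [card_insert_of_notMem ha]
    refine ⟨fun v => if v = s.card then a else e v, ?_, ?_, ?_, ?_⟩
    · intro v hv
      by_cases hvs : v = s.card
      · simp [hvs]
      · simp only [hvs, if_false]
        exact mem_insert_of_mem (h1 v (by omega))
    · intro b hb
      rcases mem_insert.mp hb with rfl | hb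
      · exact ⟨s.card, by omega, by simp⟩
      · obtain ⟨v, hv, rfl⟩ := h2 b hb
        exact ⟨v, by omega, by simp [show v ≠ s.card by omega]⟩
    · intro u hu v hv huv
      by_cases hus : u = s.card <;> by_cases hvs : v = s.card
      · rw [hus, hvs]
      · simp only [hus, hvs, if_true, if_false] at huv
        exact absurd (huv ▸ h1 v (by omega)) ha
      · simp only [hus, hvs, if_true, if_false] at huv
        exact absurd (huv ▸ h1 u (by omega)) ha
      · simp only [hus, hvs, if_false] at huv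
        exact h3 u (by omega) v (by omega) huv
    · intro u v huv hv
      by_cases hvs : v = s.card
      · by_cases hus : u = s.card
        · rw [hus, hvs]
        · simp only [hus, hvs, if_true, if_false]
          exact hmax _ (h1 u (by omega))
      · have hus : u ≠ s.card := by omega
        simp only [hus, hvs, if_false]
        exact h4 u v huv (by omega)

theorem smul_add_single {n q : ℕ} (m : Fin q → (Fin n →₀ ℕ)) (a : Fin q → ℕ) (j : Fin q) :
    ∑ i, (a i + (Pi.single j 1 : Fin q → ℕ) i) • m i = (∑ i, a i • m i) + m j := by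
  simp only [add_smul]
  rw [sum_add_distrib]
  congr 1
  rw [Finset.sum_eq_single j]
  · simp
  · intro b _ hb
    simp [hb]
  · simp

/-- Powers of a monomial ideal. -/
theorem pow_eq {k : Type u} [Field k] {n q : ℕ} (m : Fin q → (Fin n →₀ ℕ)) (r : ℕ) :
    (Ideal.span (Set.range fun i => MvPolynomial.monomial (m i) (1 : k))) ^ r =
      mI k {x | ∃ a : Fin q → ℕ, ∑ i, a i = r ∧ x = ∑ i, a i • m i} := by
  induction r with
  | zero =>
    rw [pow_zero]
    symm
    rw [Ideal.one_eq_top, Ideal.eq_top_iff_one]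
    apply Ideal.subset_span
    refine ⟨0, ⟨0, by simp, by simp⟩, rfl⟩
  | succ r ih =>
    rw [pow_succ, ih]
    unfold mI
    rw [Ideal.span_mul_span']
    congr 1
    ext x
    rw [Set.mem_mul]
    constructor
    · rintro ⟨_, ⟨_, ⟨a, ha, rfl⟩, rfl⟩, _, ⟨j, rfl⟩, rfl⟩
      refine ⟨_, ⟨fun i => a i + (Pi.single j 1 : Fin q → ℕ) i, ?_, rfl⟩, ?_⟩
      · rw [sum_add_distrib, ha, Finset.sum_pi_single']
        simp
      · simp only
        rw [MvPolynomial.monomial_mul, mul_one, smul_add_single]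
    · rintro ⟨_, ⟨a, ha, rfl⟩, rfl⟩
      have hj : ∃ j, a j ≠ 0 := by
        by_contra hcon
        push Not at hcon
        simp [hcon] at ha
      obtain ⟨j, hj⟩ := hj
      have haa : ∀ i, a i = (Function.update a j (a j - 1)) i + (Pi.single j 1 : Fin q → ℕ) i := by
        intro i
        by_cases hi : i = j
        · subst hi; simp; omega
        · simp [hi]
      have hsum : ∑ i, (Function.update a j (a j - 1)) i = r := by
        have h := ha
        rw [sum_congr rfl (fun i _ => haa i), sum_add_distrib, Finset.sum_pi_single'] at h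
        simpa using h
      refine ⟨_, ⟨_, ⟨Function.update a j (a j - 1), hsum, rfl⟩, rfl⟩, _, ⟨j, rfl⟩, ?_⟩
      simp only
      rw [MvPolynomial.monomial_mul, mul_one, ← smul_add_single]
      congr 1
      exact congrArg _ (sum_congr rfl (fun i _ => by rw [← haa i]))

/-- The generator attached to a vertex. -/
noncomputable def mu {n q : ℕ} (m : Fin q → (Fin n →₀ ℕ)) :
    Finset (Fin q) ⊕ (Fin q → ℕ) → (Fin n →₀ ℕ)
  | Sum.inl c => ∑ i ∈ c, m i
  | Sum.inr a => ∑ i, a i • m i

/-- The rank of a vertex. -/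
def rk {q : ℕ} : Finset (Fin q) ⊕ (Fin q → ℕ) → ℕ
  | Sum.inl c => (∑ i ∈ c, (i : ℕ)) % 2
  | Sum.inr _ => 2

/-- The set of vertices. -/
noncomputable def V (q r : ℕ) : Finset (Finset (Fin q) ⊕ (Fin q → ℕ)) :=
  (powersetCard r univ).disjSum ((piAntidiag univ r).filter (fun a => ∃ i, 2 ≤ a i))

theorem inl_mem_V {q r : ℕ} {c : Finset (Fin q)} : Sum.inl c ∈ V q r ↔ c.card = r := by
  simp [V, mem_powersetCard]

theorem inr_mem_V {q r : ℕ} {a : Fin q → ℕ} :
    Sum.inr a ∈ V q r ↔ ∑ i, a i = r ∧ ∃ i, 2 ≤ a i := by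
  simp [V, mem_piAntidiag]

theorem mu_image {n q : ℕ} (m : Fin q → (Fin n →₀ ℕ)) (r : ℕ) :
    {x | ∃ a : Fin q → ℕ, ∑ i, a i = r ∧ x = ∑ i, a i • m i} = mu m '' (V q r : Set _) := by
  ext x
  constructor
  · rintro ⟨a, ha, rfl⟩
    by_cases h2 : ∃ i, 2 ≤ a i
    · exact ⟨Sum.inr a, mem_coe.mpr (inr_mem_V.mpr ⟨ha, h2⟩), rfl⟩
    · push Not at h2
      have ha01 : ∀ i, a i = if i ∈ univ.filter (fun i => a i = 1) then 1 else 0 := by
        intro i
        have := h2 i
        by_cases h : a i = 1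
        · simp [h]
        · simp [h]; omega
      refine ⟨Sum.inl (univ.filter (fun i => a i = 1)), mem_coe.mpr (inl_mem_V.mpr ?_), ?_⟩
      · rw [← ha, card_eq_sum_ones, sum_filter]
        apply sum_congr rfl
        intro i _
        have := h2 i
        split_ifs with h <;> omega
      · change ∑ i ∈ univ.filter (fun i => a i = 1), m i = _
        rw [sum_filter]
        apply sum_congr rfl
        intro i _
        have := h2 i
        split_ifs with h
        · rw [h, one_smul]
        · have h0 : a i = 0 := by omega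
          rw [h0, zero_smul]
  · rintro ⟨v, hv, rfl⟩
    rcases v with c | a
    · refine ⟨fun i => if i ∈ c then 1 else 0, ?_, ?_⟩
      · rw [← inl_mem_V.mp (mem_coe.mp hv)]
        simp
      · simp [mu, ite_smul]
    · exact ⟨a, (inr_mem_V.mp (mem_coe.mp hv)).1, rfl⟩

theorem mu_inl_apply {n q : ℕ} (m : Fin q → (Fin n →₀ ℕ)) (hm : ∀ i x, m i x ≤ 1)
    (c : Finset (Fin q)) (x : Fin n) :
    mu m (Sum.inl c) x = (univ.filter (fun i => m i x = 1) ∩ c).card := by
  change (∑ i ∈ c, m i) x = _
  have h : univ.filter (fun i => m i x = 1) ∩ c = c.filter (fun i => m i x = 1) := by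
    ext i
    simp [and_comm]
  rw [Finsupp.finsetSum_apply, h, card_filter]
  apply sum_congr rfl
  intro i _
  have := hm i x
  split_ifs with h <;> omega

theorem mu_inr_apply {n q : ℕ} (m : Fin q → (Fin n →₀ ℕ)) (hm : ∀ i x, m i x ≤ 1)
    (a : Fin q → ℕ) (x : Fin n) :
    mu m (Sum.inr a) x = ∑ i ∈ univ.filter (fun i => m i x = 1), a i := by
  change (∑ i, a i • m i) x = _
  rw [Finsupp.finsetSum_apply, sum_filter]
  apply sum_congr rfl
  intro i _
  have := hm i x
  rw [Finsupp.smul_apply, smul_eq_mul]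
  split_ifs with h
  · rw [h, mul_one]
  · have h0 : m i x = 0 := by omega
    rw [h0, mul_zero]

/-- The bound on rooted sets. -/
theorem rooted_card {n q r : ℕ} (hq : 16 * (r * (r + 1) ^ r) + 8 * r + 8 ≤ q)
    (m : Fin q → (Fin n →₀ ℕ)) (hm : ∀ i x, m i x ≤ 1)
    (e : ℕ → Finset (Fin q) ⊕ (Fin q → ℕ))
    (h1 : ∀ v < (V q r).card, e v ∈ V q r)
    (h2 : ∀ a ∈ V q r, ∃ v < (V q r).card, e v = a)
    (h3 : ∀ u < (V q r).card, ∀ v < (V q r).card, e u = e v → u = v)
    (h4 : ∀ u v, u ≤ v → v < (V q r).card → rk (e u) ≤ rk (e v))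
    (F : Finset ℕ) (hF : ∀ f ∈ F, f < (V q r).card)
    (hr : Rooted (fun v => mu m (e v)) 0 F) : F.card ≤ q.choose r := by
  classical
  have hcard : F.card = (F.image e).card := by
    rw [card_image_of_injOn]
    intro u hu v hv huv
    exact h3 u (hF u hu) v (hF v hv) huv
  rw [hcard, ← card_toLeft_add_card_toRight]
  apply comb q r hq
  · intro b hb
    rw [mem_toLeft, mem_image] at hb
    obtain ⟨v, hv, hvb⟩ := hb
    have := h1 v (hF v hv)
    rw [hvb] at this
    exact inl_mem_V.mp this
  · intro a ha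
    rw [mem_toRight, mem_image] at ha
    obtain ⟨v, hv, hvb⟩ := ha
    have := h1 v (hF v hv)
    rw [hvb] at this
    exact inr_mem_V.mp this
  · rintro ⟨a0, ha0⟩ c hc hce
    rw [mem_toRight, mem_image] at ha0
    obtain ⟨v0, hv0, hv0a⟩ := ha0
    obtain ⟨u, hu, huc⟩ := h2 (Sum.inl c) (inl_mem_V.mpr hc)
    have hrku : rk (e u) = 0 := by
      rw [huc]
      exact Nat.even_iff.mp hce
    -- elements of positive rank lie above `u`
    have hgt : ∀ v ∈ F, 1 ≤ rk (e v) → u < v := by
      intro v hv hvr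
      by_contra hcon
      push Not at hcon
      have := h4 v u hcon hu
      omega
    set F' := F.filter (fun v => u < v) with hF'
    have hv0' : v0 ∈ F' := by
      rw [hF', mem_filter]
      refine ⟨hv0, hgt v0 hv0 ?_⟩
      rw [hv0a]
      simp [rk]
    have hne : F'.Nonempty := ⟨v0, hv0'⟩
    have hf0 := F'.min'_mem hne
    set f0 := F'.min' hne with hf0def
    have hf0' := mem_filter.mp (hF' ▸ hf0)
    have hroot := hr f0 hf0'.1 u hf0'.2
    have hx : ∃ x, ((F.filter (fun g => f0 ≤ g)).sup (fun v => mu m (e v)) ⊔ 0) x <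
        mu m (e u) x := by
      by_contra hcon
      push Not at hcon
      exact hroot (Finsupp.le_def.mpr hcon)
    obtain ⟨x, hx⟩ := hx
    have hall : ∀ v ∈ F, 1 ≤ rk (e v) → mu m (e v) x < mu m (e u) x := by
      intro v hv hvr
      refine lt_of_le_of_lt ?_ hx
      have hvf0 : f0 ≤ v := F'.min'_le v (by rw [hF', mem_filter]; exact ⟨hv, hgt v hv hvr⟩)
      have hle : mu m (e v) ≤ (F.filter (fun g => f0 ≤ g)).sup (fun v => mu m (e v)) ⊔ 0 :=
        le_trans (Finset.le_sup (f := fun v => mu m (e v)) (mem_filter.mpr ⟨hv, hvf0⟩)) le_sup_left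
      exact hle x
    refine ⟨univ.filter (fun i => m i x = 1), ?_, ?_⟩
    · intro g hg
      rw [mem_toRight, mem_image] at hg
      obtain ⟨v, hv, hvg⟩ := hg
      have h := hall v hv (by rw [hvg]; simp [rk])
      rw [huc, hvg, mu_inl_apply m hm, mu_inr_apply m hm] at h
      exact h
    · intro b hb hbe
      rw [mem_toLeft, mem_image] at hb
      obtain ⟨v, hv, hvb⟩ := hb
      have h := hall v hv (by
        rw [hvb]
        change 1 ≤ (∑ i ∈ b, (i : ℕ)) % 2
        rw [Nat.even_iff] at hbe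
        omega)
      rw [huc, hvb, mu_inl_apply m hm, mu_inl_apply m hm] at h
      exact h

/-- The main theorem: the explicit form. -/
theorem main (r q : ℕ) (hq : 16 * (r * (r + 1) ^ r) + 8 * r + 8 ≤ q) (k : Type u) [Field k]
    (n : ℕ) (m : Fin q → (Fin n →₀ ℕ)) (hm : ∀ i x, m i x ≤ 1) :
    HasProjectiveDimensionLT (ModuleCat.of (MvPolynomial (Fin n) k)
      ((Ideal.span (Set.range fun i => MvPolynomial.monomial (m i) (1 : k))) ^ r : Ideal _))
      (q.choose r) := by
  classical
  obtain ⟨e, h1, h2, h3, h4⟩ := exists_enum rk (V q r)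
  rw [pow_eq, mu_image]
  have hg : mu m '' (V q r : Set _) = gens (fun v => mu m (e v)) (V q r).card 0 := by
    ext x
    constructor
    · rintro ⟨a, ha, rfl⟩
      obtain ⟨v, hv, rfl⟩ := h2 a (mem_coe.mp ha)
      exact ⟨v, hv, (sup_of_le_left zero_le).symm⟩
    · rintro ⟨v, hv, rfl⟩
      exact ⟨e v, mem_coe.mpr (h1 v hv), (sup_of_le_left zero_le).symm⟩
  rw [hg]
  apply lyubeznik
  intro F hF hr
  exact rooted_card hq m hm e h1 h2 h3 h4 F hF hr

end Pool.Agent.Work.MP_42242f_al
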